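import Mathlib

namespace Pool.Agent.Helper65.TripleWeight

/-- The state reached from `x` by reading the word `w` letter by letter. -/
def run {n : ℕ} (w : List (Fin n → Fin n)) (x : Fin n) : Fin n :=
  w.foldl (fun y f => f y) x

/-- `w` is a word over the automaton `Ω` that maps every element of `S` to one common state. -/
def Synchronizes {n : ℕ} (Ω : Finset (Fin n → Fin n)) (w : List (Fin n → Fin n))
    (S : Finset (Fin n)) : Prop :=
  (∀ f ∈ w, f ∈ Ω) ∧ ∃ q : Fin n, ∀ x ∈ S, run w x = q

/-- The weight `t(S)`: the length of a shortest word over `Ω` synchronizing `S`,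
and `⊤` if there is none. -/
noncomputable def weight {n : ℕ} (Ω : Finset (Fin n → Fin n)) (S : Finset (Fin n)) : ℕ∞ :=
  ⨅ (w : List (Fin n → Fin n)) (_ : Synchronizes Ω w S), (w.length : ℕ∞)

/-- The least weight of a `k`-element set of states. -/
noncomputable def minWeight (k : ℕ) {n : ℕ} (Ω : Finset (Fin n → Fin n)) : ℕ∞ :=
  ⨅ (S : Finset (Fin n)) (_ : S.card = k), weight Ω S

/-- The largest finite value of `minWeight k Ω` over all automata `Ω` on `n` states. -/
noncomputable def rhoStar (k n : ℕ) : ℕ :=
  sSup {m : ℕ | ∃ Ω : Finset (Fin n → Fin n), minWeight k Ω = (m : ℕ∞)}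

end Pool.Agent.Helper65.TripleWeight
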