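import Pool.Agent.Helper65.TripleWeight.Defs

namespace Pool.Agent.Helper65.TripleWeight

theorem run_append {n : ℕ} (u v : List (Fin n → Fin n)) (x : Fin n) :
    run (u ++ v) x = run v (run u x) := by
  simp [run, List.foldl_append]

/-- A 3-set cannot be merged by a word shorter than the least weight. -/
theorem no_triple {n L : ℕ} {Ω : Finset (Fin n → Fin n)}
    (hmin : ∀ S : Finset (Fin n), S.card = 3 → ∀ w, Synchronizes Ω w S → L ≤ w.length)
    {v : List (Fin n → Fin n)} (hv : ∀ f ∈ v, f ∈ Ω) (hlen : v.length < L)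
    {a b c : Fin n} (hab : a ≠ b) (hac : a ≠ c) (hbc : b ≠ c)
    (h1 : run v a = run v b) (h2 : run v a = run v c) : False := by
  have hcard : ({a, b, c} : Finset (Fin n)).card = 3 := Finset.card_eq_three.mpr
    ⟨a, b, c, hab, hac, hbc, rfl⟩
  have := hmin {a, b, c} hcard v ⟨hv, run v a, by
    intro x hx
    simp only [Finset.mem_insert, Finset.mem_singleton] at hx
    rcases hx with rfl | rfl | rfl
    · rfl
    · exact h1.symm
    · exact h2.symm⟩
  omega

/-- The set of states hit at least twice. -/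
def dbl {n : ℕ} (v : List (Fin n → Fin n)) : Finset (Fin n) :=
  Finset.univ.filter (fun c => ∃ a b, a ≠ b ∧ run v a = c ∧ run v b = c)

/-- The image. -/
def img {n : ℕ} (v : List (Fin n → Fin n)) : Finset (Fin n) :=
  Finset.univ.image (run v)

theorem card_le {n L : ℕ} {Ω : Finset (Fin n → Fin n)}
    (hmin : ∀ S : Finset (Fin n), S.card = 3 → ∀ w, Synchronizes Ω w S → L ≤ w.length)
    {v : List (Fin n → Fin n)} (hv : ∀ f ∈ v, f ∈ Ω) (hlen : v.length < L) :
    n ≤ (img v).card + (dbl v).card := by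
  classical
  have h1 : (Finset.univ : Finset (Fin n)).card
      = ∑ c ∈ img v, (Finset.univ.filter (fun a => run v a = c)).card :=
    Finset.card_eq_sum_card_image (run v) Finset.univ
  have h2 : ∀ c ∈ img v, (Finset.univ.filter (fun a => run v a = c)).card
      ≤ 1 + (if c ∈ dbl v then 1 else 0) := by
    intro c _
    by_contra hcon
    push Not at hcon
    by_cases hc : c ∈ dbl v
    · rw [if_pos hc] at hcon
      obtain ⟨a, ha, b, hb, d, hd, hab, had, hbd⟩ := Finset.two_lt_card.mp hcon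
      simp only [Finset.mem_filter, Finset.mem_univ, true_and] at ha hb hd
      exact no_triple hmin hv hlen hab had hbd (ha.trans hb.symm) (ha.trans hd.symm)
    · rw [if_neg hc] at hcon
      obtain ⟨a, ha, b, hb, hab⟩ := Finset.one_lt_card.mp hcon
      simp only [Finset.mem_filter, Finset.mem_univ, true_and] at ha hb
      exact hc (by simp only [dbl, Finset.mem_filter, Finset.mem_univ, true_and]
                   exact ⟨a, b, hab, ha, hb⟩)
  have h3 := Finset.sum_le_sum h2
  rw [← h1, Finset.card_fin, Finset.sum_add_distrib, Finset.sum_const, smul_eq_mul, mul_one,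
    ← Finset.card_filter] at h3
  refine h3.trans (Nat.add_le_add_left (Finset.card_le_card ?_) _)
  intro c hc
  exact (Finset.mem_filter.mp hc).2

/-- The symmetric monomial functions. -/
def symMon (n p q : ℕ) : (Fin n × Fin n → ℚ) :=
  fun P => ((P.1 : ℕ) : ℚ) ^ p * ((P.2 : ℕ) : ℚ) ^ q + ((P.1 : ℕ) : ℚ) ^ q * ((P.2 : ℕ) : ℚ) ^ p

theorem symMon_comm (n p q : ℕ) : symMon n p q = symMon n q p := by
  funext P
  simp [symMon, add_comm]

/-- Index set of the symmetric monomials of total degree at most `N`. -/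
def idx (N : ℕ) : Finset ((_ : ℕ) × ℕ) :=
  (Finset.range (N / 2 + 1)).sigma (fun p => Finset.range (N + 1 - 2 * p))

theorem card_idx (N : ℕ) : 4 * (idx N).card ≤ (N + 2) ^ 2 := by
  have key : ∀ k, k ≤ N / 2 + 1 → ∑ p ∈ Finset.range k, (N + 1 - 2 * p) = k * (N + 2 - k) := by
    intro k
    induction k with
    | zero => intro _; simp
    | succ k ih =>
      intro hk
      rw [Finset.sum_range_succ, ih (by omega)]
      obtain ⟨r, hr⟩ : ∃ r, N = 2 * k + r := ⟨N - 2 * k, by omega⟩
      subst hr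
      have e1 : 2 * k + r + 2 - k = k + r + 2 := by omega
      have e2 : 2 * k + r + 1 - 2 * k = r + 1 := by omega
      have e3 : 2 * k + r + 2 - (k + 1) = k + r + 1 := by omega
      rw [e1, e2, e3]
      ring
  have h : (idx N).card = (N / 2 + 1) * (N + 2 - (N / 2 + 1)) := by
    rw [idx, Finset.card_sigma]
    simp only [Finset.card_range]
    exact key _ le_rfl
  rw [h]
  obtain ⟨r, hr⟩ : ∃ r, N + 2 = (N / 2 + 1) + r := ⟨N + 2 - (N / 2 + 1), by omega⟩
  have e : N + 2 - (N / 2 + 1) = r := by omega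
  rw [e, hr]
  generalize N / 2 + 1 = s
  nlinarith [sq_nonneg ((s : ℤ) - (r : ℤ)), Nat.zero_le s, (by
    have := sq_nonneg ((s : ℤ) - (r : ℤ))
    have h4 : (4 * (s * r) : ℤ) ≤ ((s : ℤ) + r) ^ 2 := by nlinarith
    exact_mod_cast h4 : 4 * (s * r) ≤ (s + r) ^ 2)]

/-- The spanning set. -/
noncomputable def gens (n N : ℕ) : Finset (Fin n × Fin n → ℚ) := by
  classical
  exact (idx N).image (fun z => symMon n z.1 (z.1 + z.2))

theorem symMon_mem {n N p q : ℕ} (h : p + q ≤ N) :
    symMon n p q ∈ Submodule.span ℚ ((gens n N : Finset (Fin n × Fin n → ℚ)) :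
      Set (Fin n × Fin n → ℚ)) := by
  classical
  wlog hpq : p ≤ q generalizing p q with H
  · rw [symMon_comm]
    exact H (by omega) (by omega)
  apply Submodule.subset_span
  rw [gens, Finset.mem_coe, Finset.mem_image]
  refine ⟨⟨p, q - p⟩, ?_, ?_⟩
  · simp only [idx, Finset.mem_sigma, Finset.mem_range]
    constructor <;> omega
  · show symMon n p (p + (q - p)) = symMon n p q
    congr 1
    omega

open Polynomial in
/-- The symmetrised product of two polynomials as a function on pairs. -/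
noncomputable def symProd (n : ℕ) (A B : ℚ[X]) : (Fin n × Fin n → ℚ) :=
  fun P => A.eval ((P.1 : ℕ) : ℚ) * B.eval ((P.2 : ℕ) : ℚ)
    + B.eval ((P.1 : ℕ) : ℚ) * A.eval ((P.2 : ℕ) : ℚ)

open Polynomial in
theorem symProd_mem {n N : ℕ} {A B : ℚ[X]} (h : A.natDegree + B.natDegree ≤ N) :
    symProd n A B ∈ Submodule.span ℚ ((gens n N : Finset (Fin n × Fin n → ℚ)) :
      Set (Fin n × Fin n → ℚ)) := by
  have e : symProd n A B = ∑ i ∈ Finset.range (A.natDegree + 1),
      ∑ j ∈ Finset.range (B.natDegree + 1), (A.coeff i * B.coeff j) • symMon n i j := by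
    funext P
    simp only [symProd, Polynomial.eval_eq_sum_range, Finset.sum_apply, Pi.smul_apply,
      smul_eq_mul, symMon, Finset.sum_mul_sum]
    rw [Finset.sum_comm (s := Finset.range (B.natDegree + 1)), ← Finset.sum_add_distrib]
    refine Finset.sum_congr rfl fun i _ => ?_
    rw [← Finset.sum_add_distrib]
    refine Finset.sum_congr rfl fun j _ => ?_
    ring
  rw [e]
  refine Submodule.sum_mem _ fun i hi => Submodule.sum_mem _ fun j hj => ?_
  refine Submodule.smul_mem _ _ (symMon_mem ?_)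
  simp only [Finset.mem_range] at hi hj
  omega

/-- A triangular family is linearly independent. -/
theorem triangular_li {N : ℕ} {α : Type*} (F : Fin N → (α → ℚ)) (P : Fin N → α)
    (h0 : ∀ i, F i (P i) ≠ 0) (h1 : ∀ i j, i < j → F i (P j) = 0) :
    LinearIndependent ℚ F := by
  rw [Fintype.linearIndependent_iff]
  intro g hg
  by_contra hcon
  push Not at hcon
  obtain ⟨i0, hi0⟩ := hcon
  classical
  let T : Finset (Fin N) := Finset.univ.filter (fun i => g i ≠ 0)
  have hT : T.Nonempty := ⟨i0, by simp [T, hi0]⟩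
  let j := T.max' hT
  have hj : g j ≠ 0 := by
    have := Finset.max'_mem T hT
    simpa [T] using this
  have hbig : ∀ i, j < i → g i = 0 := by
    intro i hi
    by_contra hne
    have : i ∈ T := by simp [T, hne]
    exact absurd (Finset.le_max' T i this) (not_le.mpr hi)
  have hev := congrFun hg (P j)
  simp only [Finset.sum_apply, Pi.smul_apply, smul_eq_mul, Pi.zero_apply] at hev
  rw [Finset.sum_eq_single j] at hev
  · exact (mul_ne_zero hj (h0 j)) hev
  · intro i _ hij
    rcases lt_or_gt_of_ne hij with hlt | hgt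
    · rw [h1 i j hlt, mul_zero]
    · rw [hbig i hgt, zero_mul]
  · intro hnot
    exact absurd (Finset.mem_univ j) hnot

open Polynomial in
/-- Vanishing exactly outside `S`. -/
noncomputable def vp {n : ℕ} (S : Finset (Fin n)) : ℚ[X] :=
  ∏ v ∈ Sᶜ, (X - C ((v : ℕ) : ℚ))

theorem vp_natDegree {n : ℕ} (S : Finset (Fin n)) : (vp S).natDegree = n - S.card := by
  rw [vp, Polynomial.natDegree_finsetProd_X_sub_C_eq_card, Finset.card_compl, Fintype.card_fin]

theorem vp_eval_zero {n : ℕ} {S : Finset (Fin n)} {x : Fin n} (hx : x ∉ S) :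
    (vp S).eval ((x : ℕ) : ℚ) = 0 := by
  rw [vp, Polynomial.eval_prod]
  exact Finset.prod_eq_zero (Finset.mem_compl.mpr hx) (by simp)

theorem vp_eval_ne {n : ℕ} {S : Finset (Fin n)} {x : Fin n} (hx : x ∈ S) :
    (vp S).eval ((x : ℕ) : ℚ) ≠ 0 := by
  rw [vp, Polynomial.eval_prod]
  refine Finset.prod_ne_zero_iff.mpr fun v hv => ?_
  simp only [Polynomial.eval_sub, Polynomial.eval_X, Polynomial.eval_C]
  intro h
  have : (x : ℕ) = (v : ℕ) := by
    have := sub_eq_zero.mp h
    exact_mod_cast this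
  have hxv : x = v := Fin.ext this
  exact (Finset.mem_compl.mp hv) (hxv ▸ hx)

theorem main_bound {n L : ℕ} {Ω : Finset (Fin n → Fin n)}
    (hmin : ∀ S : Finset (Fin n), S.card = 3 → ∀ w, Synchronizes Ω w S → L ≤ w.length)
    {S : Finset (Fin n)} (hS : S.card = 3) {w : List (Fin n → Fin n)}
    (hw : Synchronizes Ω w S) (hL : w.length = L) :
    4 * (L - 1) ≤ (n + 3) ^ 2 := by
  classical
  obtain ⟨hwΩ, q, hq⟩ := hw
  obtain ⟨a, b, c, hab, hac, hbc, rfl⟩ := Finset.card_eq_three.mp hS
  have hqa : run w a = q := hq a (by simp)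
  have hqb : run w b = q := hq b (by simp)
  have hqc : run w c = q := hq c (by simp)
  have hpre : ∀ i : ℕ, ∀ f ∈ w.take i, f ∈ Ω := fun i f hf => hwΩ f (List.mem_of_mem_take hf)
  have hsuf : ∀ i : ℕ, ∀ f ∈ w.drop i, f ∈ Ω := fun i f hf => hwΩ f (List.mem_of_mem_drop hf)
  have hsplit : ∀ (i : ℕ) (x : Fin n), run (w.drop i) (run (w.take i) x) = run w x := by
    intro i x
    rw [← run_append, List.take_append_drop]
  -- the pairs
  have hpair : ∀ i : Fin (L - 1), ∃ x y : Fin n, x ≠ y ∧
      x ∈ dbl (w.take (i + 1)) ∧ y ∈ img (w.take (i + 1)) ∧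
      run (w.drop (i + 1)) x = run (w.drop (i + 1)) y := by
    intro i
    have hi := i.2
    have hl1 : (w.take (i + 1)).length < L := by
      rw [List.length_take]; omega
    have hl2 : (w.drop (i + 1)).length < L := by
      rw [List.length_drop]; omega
    have mk : ∀ u v t : Fin n, u ≠ v → u ≠ t → v ≠ t →
        run (w.take (i + 1)) u = run (w.take (i + 1)) v → run w u = q → run w t = q →
        ∃ x y : Fin n, x ≠ y ∧
          x ∈ dbl (w.take (i + 1)) ∧ y ∈ img (w.take (i + 1)) ∧
          run (w.drop (i + 1)) x = run (w.drop (i + 1)) y := by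
      intro u v t huv hut hvt h hu ht
      refine ⟨run (w.take (i + 1)) u, run (w.take (i + 1)) t, ?_, ?_, ?_, ?_⟩
      · intro hcon
        exact no_triple hmin (hpre _) hl1 huv hut hvt h hcon
      · simp only [dbl, Finset.mem_filter, Finset.mem_univ, true_and]
        exact ⟨u, v, huv, rfl, h.symm⟩
      · simp only [img, Finset.mem_image, Finset.mem_univ, true_and]
        exact ⟨t, rfl⟩
      · rw [hsplit, hsplit, hu, ht]
    by_cases h1 : run (w.take (i + 1)) a = run (w.take (i + 1)) b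
    · exact mk a b c hab hac hbc h1 hqa hqc
    by_cases h2 : run (w.take (i + 1)) a = run (w.take (i + 1)) c
    · exact mk a c b hac hab hbc.symm h2 hqa hqb
    by_cases h3 : run (w.take (i + 1)) b = run (w.take (i + 1)) c
    · exact mk b c a hbc hab.symm hac.symm h3 hqb hqa
    exfalso
    refine no_triple hmin (hsuf (i + 1)) hl2 h1 h2 h3 ?_ ?_
    · rw [hsplit, hsplit, hqa, hqb]
    · rw [hsplit, hsplit, hqa, hqc]
  choose x y hxy hxD hyI hrun using hpair
  -- separation
  have hsep : ∀ i j : Fin (L - 1), i < j → ∀ p r : Fin n, p ≠ r →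
      run (w.drop (j + 1)) p = run (w.drop (j + 1)) r →
      p ∈ dbl (w.take (i + 1)) → r ∈ img (w.take (i + 1)) → False := by
    intro i j hij p r hpr h hp hr
    simp only [dbl, Finset.mem_filter, Finset.mem_univ, true_and] at hp
    simp only [img, Finset.mem_image, Finset.mem_univ, true_and] at hr
    obtain ⟨a', b', hab', ha', hb'⟩ := hp
    obtain ⟨c', hc'⟩ := hr
    have hac' : a' ≠ c' := by
      rintro rfl
      exact hpr (ha'.symm.trans hc')
    have hbc' : b' ≠ c' := by
      rintro rfl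
      exact hpr (hb'.symm.trans hc')
    have hlen : (w.take (i + 1) ++ w.drop (j + 1)).length < L := by
      rw [List.length_append, List.length_take, List.length_drop]
      have := i.2
      have := j.2
      have : (i : ℕ) < j := hij
      omega
    have hΩ : ∀ f ∈ w.take (i + 1) ++ w.drop (j + 1), f ∈ Ω := by
      intro f hf
      rcases List.mem_append.mp hf with hf | hf
      · exact hpre _ f hf
      · exact hsuf _ f hf
    refine no_triple hmin hΩ hlen hab' hac' hbc' ?_ ?_
    · rw [run_append, run_append, ha', hb']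
    · rw [run_append, run_append, ha', hc', h]
  let D' : Fin (L - 1) → Finset (Fin n) := fun i => (dbl (w.take (i + 1))).erase (y i)
  let I' : Fin (L - 1) → Finset (Fin n) := fun i => img (w.take (i + 1))
  let F : Fin (L - 1) → (Fin n × Fin n → ℚ) := fun i => symProd n (vp (D' i)) (vp (I' i))
  have hli : LinearIndependent ℚ F := by
    apply triangular_li F (fun i => (x i, y i))
    · intro i
      have e1 : (vp (D' i)).eval ((y i : ℕ) : ℚ) = 0 := vp_eval_zero (by simp [D'])
      have e2 : (vp (D' i)).eval ((x i : ℕ) : ℚ) ≠ 0 :=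
        vp_eval_ne (Finset.mem_erase.mpr ⟨hxy i, hxD i⟩)
      have e3 : (vp (I' i)).eval ((y i : ℕ) : ℚ) ≠ 0 := vp_eval_ne (hyI i)
      show (vp (D' i)).eval ((x i : ℕ) : ℚ) * (vp (I' i)).eval ((y i : ℕ) : ℚ)
        + (vp (I' i)).eval ((x i : ℕ) : ℚ) * (vp (D' i)).eval ((y i : ℕ) : ℚ) ≠ 0
      rw [e1, mul_zero, add_zero]
      exact mul_ne_zero e2 e3
    · intro i j hij
      show (vp (D' i)).eval ((x j : ℕ) : ℚ) * (vp (I' i)).eval ((y j : ℕ) : ℚ)
        + (vp (I' i)).eval ((x j : ℕ) : ℚ) * (vp (D' i)).eval ((y j : ℕ) : ℚ) = 0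
      have t1 : (vp (D' i)).eval ((x j : ℕ) : ℚ) * (vp (I' i)).eval ((y j : ℕ) : ℚ) = 0 := by
        by_cases hx : x j ∈ D' i
        · by_cases hy : y j ∈ I' i
          · exact (hsep i j hij (x j) (y j) (hxy j) (hrun j)
              (Finset.mem_of_mem_erase hx) hy).elim
          · rw [vp_eval_zero hy, mul_zero]
        · rw [vp_eval_zero hx, zero_mul]
      have t2 : (vp (I' i)).eval ((x j : ℕ) : ℚ) * (vp (D' i)).eval ((y j : ℕ) : ℚ) = 0 := by
        by_cases hx : x j ∈ I' i
        · by_cases hy : y j ∈ D' i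
          · exact (hsep i j hij (y j) (x j) (hxy j).symm (hrun j).symm
              (Finset.mem_of_mem_erase hy) hx).elim
          · rw [vp_eval_zero hy, mul_zero]
        · rw [vp_eval_zero hx, zero_mul]
      rw [t1, t2, add_zero]
  have hmem : Set.range F ≤ Submodule.span ℚ
      ((gens n (n + 1) : Finset (Fin n × Fin n → ℚ)) : Set (Fin n × Fin n → ℚ)) := by
    rintro _ ⟨i, rfl⟩
    apply symProd_mem
    rw [vp_natDegree, vp_natDegree]
    have hl1 : (w.take (i + 1)).length < L := by
      have := i.2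
      rw [List.length_take]; omega
    have h1 := card_le hmin (hpre (i + 1)) hl1
    have h2 : (dbl (w.take (i + 1))).card ≤ (D' i).card + 1 := by
      have := Finset.pred_card_le_card_erase (s := dbl (w.take (i + 1))) (a := y i)
      show (dbl (w.take (i + 1))).card ≤ ((dbl (w.take (i + 1))).erase (y i)).card + 1
      omega
    have h3 : (I' i).card = (img (w.take (i + 1))).card := rfl
    have h4 : (D' i).card ≤ n := by simpa using Finset.card_le_univ (D' i)
    have h5 : (I' i).card ≤ n := by simpa using Finset.card_le_univ (I' i)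
    omega
  have hfin := linearIndependent_le_span' F hli
    ((gens n (n + 1) : Finset (Fin n × Fin n → ℚ)) : Set (Fin n × Fin n → ℚ)) hmem
  have hcard : L - 1 ≤ (gens n (n + 1)).card := by
    have h := hfin
    rw [Cardinal.mk_fin] at h
    simpa using h
  have hcard2 : (gens n (n + 1)).card ≤ (idx (n + 1)).card := by
    rw [gens]
    exact Finset.card_image_le
  have := card_idx (n + 1)
  have e : (n + 1 + 2) ^ 2 = (n + 3) ^ 2 := by ring
  rw [e] at this
  omega

theorem exists_of_minWeight {n m : ℕ} {Ω : Finset (Fin n → Fin n)}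
    (h : minWeight 3 Ω = (m : ℕ∞)) :
    (∀ S : Finset (Fin n), S.card = 3 → ∀ w, Synchronizes Ω w S → m ≤ w.length) ∧
    ∃ S : Finset (Fin n), S.card = 3 ∧ ∃ w, Synchronizes Ω w S ∧ w.length = m := by
  have h1 : ∀ S : Finset (Fin n), S.card = 3 → ∀ w, Synchronizes Ω w S → m ≤ w.length := by
    intro S hS w hw
    have : minWeight 3 Ω ≤ (w.length : ℕ∞) :=
      (iInf₂_le S hS).trans (iInf₂_le w hw)
    rw [h] at this
    exact_mod_cast this
  refine ⟨h1, ?_⟩
  by_contra hcon
  push Not at hcon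
  have h2 : ((m + 1 : ℕ) : ℕ∞) ≤ minWeight 3 Ω := by
    refine le_iInf₂ fun S hS => le_iInf₂ fun w hw => ?_
    have ha := h1 S hS w hw
    have hb := hcon S hS w hw
    have : m + 1 ≤ w.length := by omega
    exact_mod_cast this
  rw [h] at h2
  have : m + 1 ≤ m := by exact_mod_cast h2
  omega

theorem mem_bound {n m : ℕ}
    (h : m ∈ {m : ℕ | ∃ Ω : Finset (Fin n → Fin n), minWeight 3 Ω = (m : ℕ∞)}) :
    4 * (m - 1) ≤ (n + 3) ^ 2 := by
  obtain ⟨Ω, hΩ⟩ := h
  obtain ⟨hmin, S, hS, w, hw, hl⟩ := exists_of_minWeight hΩ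
  exact main_bound hmin hS hw hl

theorem bdd (n : ℕ) :
    BddAbove {m : ℕ | ∃ Ω : Finset (Fin n → Fin n), minWeight 3 Ω = (m : ℕ∞)} := by
  refine ⟨(n + 3) ^ 2 + 1, fun m hm => ?_⟩
  have := mem_bound hm
  omega

theorem nonempty_of {n : ℕ} (hn : 3 ≤ n) :
    {m : ℕ | ∃ Ω : Finset (Fin n → Fin n), minWeight 3 Ω = (m : ℕ∞)}.Nonempty := by
  classical
  have h0 : 0 < n := by omega
  let f : Fin n → Fin n := fun _ => ⟨0, h0⟩
  obtain ⟨S, hS⟩ : ∃ S : Finset (Fin n), S.card = 3 := by
    obtain ⟨S, _, hS⟩ := Finset.exists_subset_card_eq (s := (Finset.univ : Finset (Fin n)))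
      (n := 3) (by simpa using hn)
    exact ⟨S, hS⟩
  have hsync : Synchronizes ({f} : Finset (Fin n → Fin n)) [f] S := by
    refine ⟨fun g hg => ?_, ⟨0, h0⟩, fun x _ => rfl⟩
    rw [List.mem_singleton] at hg
    rw [hg]
    exact Finset.mem_singleton_self f
  have hle : minWeight 3 ({f} : Finset (Fin n → Fin n)) ≤ ((1 : ℕ) : ℕ∞) :=
    (iInf₂_le S hS).trans (iInf₂_le [f] hsync)
  have hne : minWeight 3 ({f} : Finset (Fin n → Fin n)) ≠ ⊤ := by
    intro htop
    rw [htop] at hle
    exact absurd hle (by simp)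
  obtain ⟨m, hm⟩ := ENat.ne_top_iff_exists.mp hne
  exact ⟨m, {f}, hm.symm⟩

theorem rho_bound (n : ℕ) : 4 * (rhoStar 3 n - 1) ≤ (n + 3) ^ 2 := by
  by_cases h : {m : ℕ | ∃ Ω : Finset (Fin n → Fin n), minWeight 3 Ω = (m : ℕ∞)}.Nonempty
  · exact mem_bound (Nat.sSup_mem h (bdd n))
  · rw [Set.not_nonempty_iff_eq_empty] at h
    have : rhoStar 3 n = 0 := by
      rw [rhoStar, h]
      simp
    rw [this]
    simp

theorem rho_bound_real (n : ℕ) : (rhoStar 3 n : ℝ) ≤ ((n : ℝ) + 3) ^ 2 / 4 + 1 := by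
  have h := rho_bound n
  have h2 : 4 * rhoStar 3 n ≤ (n + 3) ^ 2 + 4 := by omega
  have h3 : (4 : ℝ) * (rhoStar 3 n : ℝ) ≤ ((n : ℝ) + 3) ^ 2 + 4 := by exact_mod_cast h2
  linarith

theorem eventually_bound (ε : ℝ) (hε : 0 < ε) :
    ∀ᶠ n : ℕ in Filter.atTop, (rhoStar 3 n : ℝ) ≤ (1 / 4 + ε) * (n : ℝ) ^ 2 := by
  obtain ⟨N, hN⟩ := exists_nat_gt (6 / ε)
  filter_upwards [Filter.eventually_ge_atTop (max N 1)] with n hn
  have hn1 : (1 : ℝ) ≤ n := by
    exact_mod_cast (le_max_right N 1).trans hn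
  have hnN : (N : ℝ) ≤ n := by
    exact_mod_cast (le_max_left N 1).trans hn
  have h6 : 6 < ε * n := by
    have : 6 / ε < n := lt_of_lt_of_le hN hnN
    rwa [div_lt_iff₀ hε, mul_comm] at this
  have := rho_bound_real n
  nlinarith

end Pool.Agent.Helper65.TripleWeight
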